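import Pool.Agent.Helper35.HS3.GoalsB

/-!
# Project HS3, packet BDA

The blow-down of a superharmonic function which does not dominate a multiple of `x₀`.
-/

namespace Pool.Agent.Helper83.HS3.BDA

open MeasureTheory Set Filter Topology Metric
open Pool.Agent.Helper35.HS3

theorem proof (hLAYER : LAYER_stmt) (hLB : LB_stmt) : BDA_stmt := by
  intro τ w C₀ hw hmass hinf ε hε
  obtain ⟨C, hC, hlay⟩ := hLAYER
  have hC1 : 0 < |C₀| + 1 := by positivity
  have hC0 : C₀ ≤ |C₀| + 1 := (le_abs_self C₀).trans (by linarith)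
  set C1 : ℝ := |C₀| + 1 with hC1def
  set δ : ℝ := min (1 / 2) (ε / (2 * (C * 81 * C1))) with hδdef
  have hden : 0 < 2 * (C * 81 * C1) := by positivity
  have hδ0 : 0 < δ := lt_min (by norm_num) (by positivity)
  have hδ2 : δ ≤ 1 / 2 := min_le_left _ _
  have hδ1 : δ < 1 := by linarith
  have hδe : C * δ * (81 * C1) ≤ ε / 2 := by
    have h1 : δ ≤ ε / (2 * (C * 81 * C1)) := min_le_right _ _
    rw [le_div_iff₀ hden] at h1
    nlinarith
  obtain ⟨c, hc, hlb⟩ := hLB δ hδ0 hδ1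
  obtain ⟨x, hx, hwx⟩ := hinf (c * ε / 2) (by positivity)
  have hx0 : 0 < τ * x 0 := hx
  refine ⟨max 1 ‖x‖, fun R hR => ?_⟩
  have hR1 : 1 ≤ R := (le_max_left _ _).trans hR
  have hRx : ‖x‖ ≤ R := (le_max_right _ _).trans hR
  have hR0 : 0 < R := by linarith
  have hR4 : 0 < R ^ 4 := by positivity
  have hcont : Continuous w := hw.smooth.continuous
  have hint : IntegrableOn w (Hs τ ∩ ball (0 : E) R) := integrableOn_Hs_ball hcont τ R
  have hcoord : Continuous fun y : E => τ * y 0 := by fun_prop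
  have hmeas : MeasurableSet {y : E | τ * y 0 < δ * R} :=
    (isOpen_lt hcoord continuous_const).measurableSet
  have hsplit := integral_inter_add_sdiff (μ := volume) (f := w) hmeas hint
  have hset : (Hs τ ∩ ball (0 : E) R) \ {y : E | τ * y 0 < δ * R} =
      ball (0 : E) R ∩ {y | δ * R ≤ τ * y 0} := by
    ext y
    have hδR : 0 < δ * R := by positivity
    simp only [Set.mem_sdiff, mem_inter_iff, mem_ofPred_eq, not_lt]
    constructor
    · rintro ⟨⟨_, h2⟩, h3⟩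
      exact ⟨h2, h3⟩
    · rintro ⟨h2, h3⟩
      exact ⟨⟨lt_of_lt_of_le hδR h3, h2⟩, h3⟩
  rw [hset] at hsplit
  have h1 : ∫ y in Hs τ ∩ ball (0 : E) R ∩ {y : E | τ * y 0 < δ * R}, w y ≤ ε / 2 * R ^ 4 := by
    have ha := hlay τ w R δ hw hR0 hδ0 hδ1.le
    have hb := hmass (3 * R) (by linarith)
    have hCδ : 0 ≤ C * δ := by positivity
    calc ∫ y in Hs τ ∩ ball (0 : E) R ∩ {y : E | τ * y 0 < δ * R}, w y
        ≤ C * δ * ∫ y in Hs τ ∩ ball (0 : E) (3 * R), w y := ha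
      _ ≤ C * δ * (C₀ * (3 * R) ^ 4) := mul_le_mul_of_nonneg_left hb hCδ
      _ ≤ C * δ * (C1 * (3 * R) ^ 4) := by
          refine mul_le_mul_of_nonneg_left ?_ hCδ
          exact mul_le_mul_of_nonneg_right hC0 (by positivity)
      _ = C * δ * (81 * C1) * R ^ 4 := by ring
      _ ≤ ε / 2 * R ^ 4 := mul_le_mul_of_nonneg_right hδe hR4.le
  have h2 : ∫ y in ball (0 : E) R ∩ {y | δ * R ≤ τ * y 0}, w y ≤ ε / 2 * R ^ 4 := by
    have ha := hlb τ w R x hw hR0 hx hRx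
    have hcx : 0 < c * (τ * x 0) := by positivity
    have hb : c * (τ * x 0) * ∫ y in ball (0 : E) R ∩ {y | δ * R ≤ τ * y 0}, w y ≤
        c * (τ * x 0) * (ε / 2 * R ^ 4) := by
      refine ha.trans ?_
      calc R ^ 4 * w x ≤ R ^ 4 * (c * ε / 2 * (τ * x 0)) := mul_le_mul_of_nonneg_left hwx hR4.le
        _ = c * (τ * x 0) * (ε / 2 * R ^ 4) := by ring
    exact le_of_mul_le_mul_left hb hcx
  calc ∫ y in Hs τ ∩ ball (0 : E) R, w y
      = (∫ y in Hs τ ∩ ball (0 : E) R ∩ {y : E | τ * y 0 < δ * R}, w y) +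
        ∫ y in ball (0 : E) R ∩ {y | δ * R ≤ τ * y 0}, w y := hsplit.symm
    _ ≤ ε / 2 * R ^ 4 + ε / 2 * R ^ 4 := add_le_add h1 h2
    _ = ε * R ^ 4 := by ring

end Pool.Agent.Helper83.HS3.BDA
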